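import Pool.Agent.H.MP_7fb4a2_an.G

set_option autoImplicit false
open MeasureTheory

universe u v

namespace Pool.Agent.Results.MP_5317c0_an.Main

/-- Fourier-Stieltjes transforms of complex measures on the circle -/
noncomputable def B : Submodule ℂ (ℤ → ℂ) :=
  Submodule.span ℂ {g | ∃ μ : Measure UnitAddCircle, IsFiniteMeasure μ ∧
    ∀ n : ℤ, g n = ∫ t, fourier n t ∂μ}

/-- Hilbert representable -/
def HilbRep {X : Type u} [TopologicalSpace X] (S : X ≃ₜ X) : Prop :=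
  ∃ (H : Type v) (_ : NormedAddCommGroup H) (_ : InnerProductSpace ℂ H) (_ : CompleteSpace H)
    (U : H ≃ₗᵢ[ℂ] H) (α : X → H),
    Topology.IsEmbedding (fun x => toWeakSpace ℂ H (α x)) ∧ ∀ x, α (S x) = U (α x)

/-- recurrent-transitive Hilbert system -/
def RTHilbert {Y : Type u} [TopologicalSpace Y] (T : Y ≃ₜ Y) : Prop :=
  (∀ y : Y, ¬ IsOpen {y}) ∧ ∃ y₀ : Y, DenseRange (fun n : ℤ => (T ^ n) y₀) ∧
    ∀ F : C(Y, ℂ), ∀ ε : ℝ, 0 < ε → ∃ g ∈ B, ∀ n : ℤ, ‖F ((T ^ n) y₀) - g n‖ ≤ ε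

open Pool.Agent.H.MP_7fb4a2_an in
theorem result :
    (∃ (Y : Type) (_ : TopologicalSpace Y) (_ : CompactSpace Y) (_ : TopologicalSpace.MetrizableSpace Y)
      (T : Y ≃ₜ Y), RTHilbert T ∧ ¬ HilbRep.{0, v} T ∧
      ¬ ∃ (X : Type u) (_ : TopologicalSpace X) (_ : CompactSpace X) (_ : T2Space X) (S : X ≃ₜ X)
        (K : Subgroup (X ≃ₜ X)) (π : X → Y), HilbRep.{u, v} S ∧
        IsCompact ((fun k : X ≃ₜ X => (k : C(X, X))) '' K) ∧ (∀ k ∈ K, ∀ x, k (S x) = S (k x)) ∧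
        Continuous π ∧ Function.Surjective π ∧ (∀ x, π (S x) = T (π x)) ∧
        ∀ x x', π x = π x' ↔ ∃ k ∈ K, k x = x') ∧
    ∀ (Y : Type u) [TopologicalSpace Y] [CompactSpace Y] [TopologicalSpace.MetrizableSpace Y]
      (T : Y ≃ₜ Y), RTHilbert T →
      ∃ (X : Type u) (_ : TopologicalSpace X) (_ : CompactSpace X)
        (_ : TopologicalSpace.MetrizableSpace X) (S : X ≃ₜ X) (π : X → Y), HilbRep.{u, 0} S ∧
        Continuous π ∧ Function.Surjective π ∧ (∀ x, π (S x) = T (π x)) ∧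
        ∃ X₀ : Set X, IsGδ X₀ ∧ Dense X₀ ∧ ∀ x ∈ X₀, π ⁻¹' {π x} = {x} := by
  refine ⟨⟨Xf ff, inferInstance, inferInstance, inferInstance, TT ff,
    ⟨no_isol, x0 ff, dense_orb ff, hilbert⟩, ?_, ?_⟩, ?_⟩
  · rintro ⟨H, _, _, _, U, α, hα, he⟩
    have := core3 U α (fun w => (weak_inner w).comp hα.continuous) he (yy 0 1 0)
    exact yy_ne 0 (hα.injective (congrArg _ this))
  · rintro ⟨X, _, _, _, S, K, π, ⟨H, _, _, _, U, α, hα, he⟩, hK, hc, hπ, hs, hπe, hf⟩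
    exact no_group S U α (fun a b h => hα.injective (congrArg _ h))
      (fun w => (weak_inner w).comp hα.continuous) he K hK hc π hπ hs hπe (fun x x' => (hf x x').1)
  · rintro Y _ _ _ T ⟨-, y0, hd, h⟩
    exact almost T y0 hd h

end Pool.Agent.Results.MP_5317c0_an.Main
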